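import Pool.Agent.N912.LB.Stm
import Pool.Agent.N301.LB.B1

/-!
# B7: the factorisations of the ideal `(n + ω)` (project LB of helper912; helper568)
-/

set_option autoImplicit false


namespace Pool.Agent.N568.LB

open Finset
open Pool.Agent.W78.GA (Qd)
open Pool.Agent.N912.LB (S_B7 en i1)

variable {t c : ℤ}

/-- in the maximal order the triples are primitive -/
theorem gcd_unit (hic : IsIntegrallyClosed (Qd t c)) (n d e : ℕ) (hd : 1 ≤ d)
    (hde : (d : ℤ) * e = (n : ℤ) ^ 2 + t * n + c) (g : ℤ) (hg1 : g ∣ d) (hg2 : g ∣ e)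
    (hg3 : g ∣ 2 * (n : ℤ) + t) : IsUnit g := by
  obtain ⟨a, ha⟩ := hg1
  obtain ⟨b, hb⟩ := hg2
  obtain ⟨s, hs⟩ := hg3
  have hg0 : g ≠ 0 := by
    rintro rfl
    rw [zero_mul] at ha
    have : d = 0 := by exact_mod_cast ha
    omega
  obtain ⟨θ, hθ⟩ : ∃ θ, θ = en t c n := ⟨_, rfl⟩
  have hθ2 : θ * θ = ((g * s : ℤ) : Qd t c) * θ - ((g * a * (g * b) : ℤ) : Qd t c) := by
    rw [← hs, ← ha, ← hb, hθ]
    ext
    · simp only [en, QuadraticAlgebra.re_mul, QuadraticAlgebra.re_sub, QuadraticAlgebra.re_intCast,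
        QuadraticAlgebra.im_intCast, Int.cast_id]
      linear_combination hde
    · simp only [en, QuadraticAlgebra.im_mul, QuadraticAlgebra.im_sub, QuadraticAlgebra.re_intCast,
        QuadraticAlgebra.im_intCast, Int.cast_id]
      ring
  have hgn : ((g : ℤ) : Qd t c) ∈ nonZeroDivisors (Qd t c) := by
    rw [mem_nonZeroDivisors_iff_right]
    intro x hx
    have h1 := congrArg QuadraticAlgebra.re hx
    have h2 := congrArg QuadraticAlgebra.im hx
    simp only [QuadraticAlgebra.re_mul, QuadraticAlgebra.im_mul, QuadraticAlgebra.re_intCast,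
      QuadraticAlgebra.im_intCast, QuadraticAlgebra.re_zero, QuadraticAlgebra.im_zero, mul_zero,
      add_zero, zero_add, Int.cast_id] at h1 h2
    ext
    · rw [QuadraticAlgebra.re_zero]
      exact (mul_eq_zero.1 h1).resolve_right hg0
    · rw [QuadraticAlgebra.im_zero]
      exact (mul_eq_zero.1 h2).resolve_right hg0
  obtain ⟨z, hz⟩ : ∃ z : FractionRing (Qd t c), z * algebraMap (Qd t c) (FractionRing (Qd t c)) (g : Qd t c) =
      algebraMap (Qd t c) (FractionRing (Qd t c)) θ :=
    ⟨IsLocalization.mk' _ θ ⟨_, hgn⟩, IsLocalization.mk'_spec ..⟩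
  have hgu : IsUnit (algebraMap (Qd t c) (FractionRing (Qd t c)) (g : Qd t c)) :=
    IsLocalization.map_units (FractionRing (Qd t c)) (⟨_, hgn⟩ : nonZeroDivisors (Qd t c))
  have hint : IsIntegral (Qd t c) z := by
    refine ⟨Polynomial.X ^ 2 - Polynomial.C (s : Qd t c) * Polynomial.X +
      Polynomial.C ((a * b : ℤ) : Qd t c), ?_, ?_⟩
    · monicity!
    · simp only [Polynomial.eval₂_add, Polynomial.eval₂_sub, Polynomial.eval₂_mul,
        Polynomial.eval₂_pow, Polynomial.eval₂_X, Polynomial.eval₂_C]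
      have h1 := congrArg (algebraMap (Qd t c) (FractionRing (Qd t c))) hθ2
      rw [map_mul, map_sub, map_mul, ← hz] at h1
      apply (hgu.pow 2).mul_left_cancel
      rw [mul_zero]
      simp only [map_mul, map_intCast, Int.cast_mul] at h1 ⊢
      linear_combination h1
  obtain ⟨x, hx⟩ := IsIntegrallyClosed.algebraMap_eq_of_integral hint
  have hxg : x * (g : Qd t c) = θ := by
    apply IsFractionRing.injective (Qd t c) (FractionRing (Qd t c))
    rw [map_mul, hx, hz]
  have h3 := congrArg QuadraticAlgebra.im hxg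
  rw [hθ] at h3
  simp only [en, QuadraticAlgebra.im_mul, QuadraticAlgebra.re_intCast,
    QuadraticAlgebra.im_intCast, mul_zero, add_zero, zero_add, Int.cast_id] at h3
  exact IsUnit.of_mul_eq_one_right _ h3

/-- the product of the two ideals -/
theorem i1_mul (hic : IsIntegrallyClosed (Qd t c)) (n d e : ℕ) (hd : 1 ≤ d)
    (hde : (d : ℤ) * e = (n : ℤ) ^ 2 + t * n + c) :
    i1 t c d n * i1 t c e n = Ideal.span {en t c n} := by
  have hgcd : ∃ a b k : ℤ, a * d + b * e + k * (2 * n + t) = 1 := by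
    obtain ⟨g, hg⟩ := (IsPrincipalIdealRing.principal
      (Ideal.span ({(d : ℤ), (e : ℤ), 2 * (n : ℤ) + t} : Set ℤ))).principal
    have hmem : ∀ x ∈ ({(d : ℤ), (e : ℤ), 2 * (n : ℤ) + t} : Set ℤ), g ∣ x := by
      intro x hx
      have h6 : x ∈ Ideal.span ({(d : ℤ), (e : ℤ), 2 * (n : ℤ) + t} : Set ℤ) :=
        Ideal.subset_span hx
      rw [hg] at h6
      exact Ideal.mem_span_singleton.1 h6
    have hu : IsUnit g := gcd_unit hic n d e hd hde g (hmem _ (by simp)) (hmem _ (by simp))
      (hmem _ (by simp))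
    have h1 : (1 : ℤ) ∈ Ideal.span ({(d : ℤ), (e : ℤ), 2 * (n : ℤ) + t} : Set ℤ) := by
      rw [hg]
      exact Ideal.mem_span_singleton.2 hu.dvd
    obtain ⟨a, b, k, habk⟩ := Submodule.mem_span_triple.1 h1
    exact ⟨a, b, k, by simpa [smul_eq_mul] using habk⟩
  obtain ⟨a, b, k, habk⟩ := hgcd
  have hs : en t c n + star (en t c n) = ((2 * n + t : ℤ) : Qd t c) := by
    ext
    · simp only [en, QuadraticAlgebra.re_add, QuadraticAlgebra.re_star, QuadraticAlgebra.re_intCast,
        Int.cast_id]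
      ring
    · simp only [en, QuadraticAlgebra.im_add, QuadraticAlgebra.im_star, QuadraticAlgebra.im_intCast]
      ring
  have hgQ : (a : Qd t c) * (d : Qd t c) + (b : Qd t c) * (e : Qd t c) +
      (k : Qd t c) * (en t c n + star (en t c n)) = 1 := by
    rw [hs]
    have := congrArg (Int.cast (R := Qd t c)) habk
    push_cast at this ⊢
    exact this
  have hN : (d : Qd t c) * (e : Qd t c) = star (en t c n) * en t c n := by
    ext
    · simp only [en, QuadraticAlgebra.re_mul, QuadraticAlgebra.re_natCast,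
        QuadraticAlgebra.im_natCast, QuadraticAlgebra.re_star, QuadraticAlgebra.im_star]
      linear_combination hde
    · simp only [en, QuadraticAlgebra.im_mul, QuadraticAlgebra.re_natCast,
        QuadraticAlgebra.im_natCast, QuadraticAlgebra.re_star, QuadraticAlgebra.im_star]
      ring
  have h := Pool.Agent.N301.LB.key (en t c n) (d : Qd t c) (en t c n) (star (en t c n))
    (d : Qd t c) (e : Qd t c) rfl hN ⟨a, b, k, hgQ⟩
  exact h

/-- the homomorphism to `ℤ/d` with kernel `(d, n + ω)` -/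
def rh (t c : ℤ) (d n : ℕ) (h : (d : ℤ) ∣ (n : ℤ) ^ 2 + t * n + c) : Qd t c →+* ZMod d where
  toFun z := ((z.re - n * z.im : ℤ) : ZMod d)
  map_one' := by simp [QuadraticAlgebra.re_one, QuadraticAlgebra.im_one]
  map_zero' := by simp
  map_add' := by
    intro x y
    simp only [QuadraticAlgebra.re_add, QuadraticAlgebra.im_add]
    push_cast
    ring
  map_mul' := by
    intro x y
    simp only [QuadraticAlgebra.re_mul, QuadraticAlgebra.im_mul]
    rw [← Int.cast_mul, ← sub_eq_zero, ← Int.cast_sub, ZMod.intCast_zmod_eq_zero_iff_dvd]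
    obtain ⟨k, hk⟩ := h
    refine ⟨-(k * (x.im * y.im)), ?_⟩
    linear_combination (-x.im * y.im) * hk

theorem rh_apply {d n : ℕ} (h : (d : ℤ) ∣ (n : ℤ) ^ 2 + t * n + c) (z : Qd t c) :
    rh t c d n h z = ((z.re - n * z.im : ℤ) : ZMod d) := rfl

theorem mem_i1 {d n : ℕ} (h : (d : ℤ) ∣ (n : ℤ) ^ 2 + t * n + c) (z : Qd t c) :
    z ∈ i1 t c d n ↔ (d : ℤ) ∣ z.re - n * z.im := by
  constructor
  · intro hz
    have h1 : i1 t c d n ≤ RingHom.ker (rh t c d n h) := by
      unfold i1
      rw [Ideal.span_le]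
      rintro x (rfl | rfl)
      · show rh t c d n h _ = 0
        rw [map_natCast]
        simp
      · show rh t c d n h _ = 0
        rw [rh_apply]
        simp [en]
    have h2 := h1 hz
    rw [RingHom.mem_ker, rh_apply, ZMod.intCast_zmod_eq_zero_iff_dvd] at h2
    exact h2
  · rintro ⟨k, hk⟩
    unfold i1
    refine Ideal.mem_span_pair.2 ⟨(k : Qd t c), (z.im : Qd t c), ?_⟩
    ext
    · simp only [en, QuadraticAlgebra.re_add, QuadraticAlgebra.re_mul, QuadraticAlgebra.re_intCast,
        QuadraticAlgebra.im_intCast, QuadraticAlgebra.re_natCast, QuadraticAlgebra.im_natCast,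
        Int.cast_id]
      linear_combination -hk
    · simp only [en, QuadraticAlgebra.im_add, QuadraticAlgebra.im_mul, QuadraticAlgebra.re_intCast,
        QuadraticAlgebra.im_intCast, QuadraticAlgebra.re_natCast, QuadraticAlgebra.im_natCast,
        Int.cast_id]
      ring

theorem card_i1 {d n : ℕ} (h : (d : ℤ) ∣ (n : ℤ) ^ 2 + t * n + c) :
    Nat.card (Qd t c ⧸ i1 t c d n) = d := by
  have hs : Function.Surjective (rh t c d n h) := by
    intro x
    obtain ⟨k, rfl⟩ := ZMod.intCast_surjective x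
    exact ⟨(k : Qd t c), map_intCast _ k⟩
  have hk : RingHom.ker (rh t c d n h) = i1 t c d n := by
    ext z
    rw [RingHom.mem_ker, rh_apply, ZMod.intCast_zmod_eq_zero_iff_dvd, mem_i1 h]
  rw [← hk, Nat.card_congr (RingHom.quotientKerEquivOfSurjective hs).toEquiv, Nat.card_zmod]

theorem N_pos (hD : t ^ 2 < 4 * c) (n : ℕ) : 0 < (n : ℤ) ^ 2 + t * n + c := by
  nlinarith [sq_nonneg (2 * (n : ℤ) + t)]

/-- `n + ω` is not a zero divisor -/
theorem en_cancel (hD : t ^ 2 < 4 * c) (n : ℕ) {x y : Qd t c}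
    (h : en t c n * x = en t c n * y) : x = y := by
  have h1 : ((((n : ℤ) ^ 2 + t * n + c : ℤ)) : Qd t c) = star (en t c n) * en t c n := by
    ext
    · simp only [en, QuadraticAlgebra.re_mul, QuadraticAlgebra.re_intCast,
        QuadraticAlgebra.re_star, QuadraticAlgebra.im_star, Int.cast_id]
      ring
    · simp only [en, QuadraticAlgebra.im_mul, QuadraticAlgebra.im_intCast,
        QuadraticAlgebra.re_star, QuadraticAlgebra.im_star]
      ring
  have h2 : ((((n : ℤ) ^ 2 + t * n + c : ℤ)) : Qd t c) * x =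
      ((((n : ℤ) ^ 2 + t * n + c : ℤ)) : Qd t c) * y := by
    rw [h1, mul_assoc, mul_assoc, h]
  have h3 := N_pos hD n
  have h4 := congrArg QuadraticAlgebra.re h2
  have h5 := congrArg QuadraticAlgebra.im h2
  simp only [QuadraticAlgebra.re_mul, QuadraticAlgebra.im_mul, QuadraticAlgebra.re_intCast,
    QuadraticAlgebra.im_intCast, mul_zero, zero_mul, add_zero, Int.cast_id] at h4 h5
  ext
  · exact mul_left_cancel₀ h3.ne' h4
  · exact mul_left_cancel₀ h3.ne' h5

/-- an ideal containing `n + ω` -/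
theorem eq_i1 (hD : t ^ 2 < 4 * c) (n : ℕ) (I : Ideal (Qd t c)) (hI : en t c n ∈ I) :
    ∃ d : ℕ, 1 ≤ d ∧ (d : ℤ) ∣ (n : ℤ) ^ 2 + t * n + c ∧ I = i1 t c d n := by
  obtain ⟨g, hg⟩ := (IsPrincipalIdealRing.principal (I.comap (Int.castRingHom (Qd t c)))).principal
  have hmem : ∀ k : ℤ, (k : Qd t c) ∈ I ↔ (g.natAbs : ℤ) ∣ k := by
    intro k
    have h1 : (k : Qd t c) ∈ I ↔ k ∈ I.comap (Int.castRingHom (Qd t c)) := Iff.rfl
    rw [h1, hg, Int.natAbs_dvd]
    exact Ideal.mem_span_singleton
  have hN : ((((n : ℤ) ^ 2 + t * n + c : ℤ)) : Qd t c) ∈ I := by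
    have h1 : ((((n : ℤ) ^ 2 + t * n + c : ℤ)) : Qd t c) = star (en t c n) * en t c n := by
      ext
      · simp only [en, QuadraticAlgebra.re_mul, QuadraticAlgebra.re_intCast,
          QuadraticAlgebra.re_star, QuadraticAlgebra.im_star, Int.cast_id]
        ring
      · simp only [en, QuadraticAlgebra.im_mul, QuadraticAlgebra.im_intCast,
          QuadraticAlgebra.re_star, QuadraticAlgebra.im_star]
        ring
    rw [h1]
    exact I.mul_mem_left _ hI
  have hdv := (hmem _).1 hN
  have hpos := N_pos hD n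
  refine ⟨g.natAbs, ?_, hdv, ?_⟩
  · rw [Nat.one_le_iff_ne_zero]
    intro h0
    rw [h0] at hdv
    simp only [Nat.cast_zero, zero_dvd_iff] at hdv
    omega
  · ext z
    rw [mem_i1 hdv, ← hmem]
    have h1 : z = ((z.re - n * z.im : ℤ) : Qd t c) + (z.im : Qd t c) * en t c n := by
      ext
      · simp only [en, QuadraticAlgebra.re_add, QuadraticAlgebra.re_mul,
          QuadraticAlgebra.re_intCast, QuadraticAlgebra.im_intCast, Int.cast_id]
        ring
      · simp only [en, QuadraticAlgebra.im_add, QuadraticAlgebra.im_mul,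
          QuadraticAlgebra.re_intCast, QuadraticAlgebra.im_intCast, Int.cast_id]
        ring
    have h2 : (z.im : Qd t c) * en t c n ∈ I := I.mul_mem_left _ hI
    constructor
    · intro hz
      rw [h1] at hz
      exact (Ideal.add_mem_iff_left I h2).1 hz
    · intro hz
      rw [h1]
      exact (Ideal.add_mem_iff_left I h2).2 hz

/-- B7 -/
theorem b7 : S_B7 := by
  intro t c ht hD hic n I J
  constructor
  · intro h
    have hθ : en t c n ∈ I * J := by
      rw [h]
      exact Ideal.mem_span_singleton_self _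
    have hθI : en t c n ∈ I := (Ideal.mul_le_left : I * J ≤ I) hθ
    have hθJ : en t c n ∈ J := (Ideal.mul_le_right : I * J ≤ J) hθ
    obtain ⟨d, hd1, hd2, hId⟩ := eq_i1 hD n I hθI
    obtain ⟨e, he1, he2, hJe⟩ := eq_i1 hD n J hθJ
    subst hId hJe
    obtain ⟨e', he'⟩ := hd2
    have hpos := N_pos hD n
    have he'0 : 0 < e' := by
      have h1 : (0 : ℤ) < d := by exact_mod_cast hd1
      rw [he'] at hpos
      exact (pos_iff_pos_of_mul_pos hpos).1 h1
    obtain ⟨e'', rfl⟩ := Int.eq_ofNat_of_zero_le he'0.le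
    have hde : (d : ℤ) * (e'' : ℕ) = (n : ℤ) ^ 2 + t * n + c := he'.symm
    have hI := i1_mul hic n d e'' hd1 hde
    have h2 : Ideal.span {en t c n} * i1 t c e'' n = Ideal.span {en t c n} * i1 t c e n := by
      calc Ideal.span {en t c n} * i1 t c e'' n
          = (i1 t c d n * i1 t c e n) * i1 t c e'' n := by rw [h]
        _ = (i1 t c d n * i1 t c e'' n) * i1 t c e n := by ring
        _ = Ideal.span {en t c n} * i1 t c e n := by rw [hI]
    have h3 : i1 t c e'' n = i1 t c e n := by
      ext z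
      constructor
      · intro hz
        have h4 : en t c n * z ∈ Ideal.span {en t c n} * i1 t c e n := by
          rw [← h2]
          exact Ideal.mem_span_singleton_mul.2 ⟨z, hz, rfl⟩
        obtain ⟨w, hw, hw'⟩ := Ideal.mem_span_singleton_mul.1 h4
        rw [← en_cancel hD n hw']
        exact hw
      · intro hz
        have h4 : en t c n * z ∈ Ideal.span {en t c n} * i1 t c e'' n := by
          rw [h2]
          exact Ideal.mem_span_singleton_mul.2 ⟨z, hz, rfl⟩
        obtain ⟨w, hw, hw'⟩ := Ideal.mem_span_singleton_mul.1 h4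
        rw [← en_cancel hD n hw']
        exact hw
    have h5 : (e'' : ℤ) ∣ (n : ℤ) ^ 2 + t * n + c := ⟨d, by rw [← hde]; ring⟩
    have h6 : e'' = e := by
      rw [← card_i1 h5, h3, card_i1 he2]
    rw [h6] at hde
    exact ⟨d, e, hde, rfl, rfl, card_i1 ⟨e, hde.symm⟩, card_i1 he2⟩
  · rintro ⟨d, e, hde, rfl, rfl, -, -⟩
    refine i1_mul hic n d e ?_ hde
    rw [Nat.one_le_iff_ne_zero]
    rintro rfl
    have := N_pos hD n
    rw [← hde] at this
    simp at this

end Pool.Agent.N568.LB
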